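import Pool.Agent.H27.RU.Frs
import Pool.Agent.H93.RS.Cnt

/-!
# [H27 RU FM3]  the fourth moment for `ρ < 1/3`, from `rs`
-/

set_option autoImplicit false

namespace Pool.Agent.H27.RU

theorem fm3 (ρ : ℝ) (h0 : 0 < ρ) (h1 : ρ < 1 / 3) : Pool.Agent.H24.TL.Fm ρ :=
  fm_of (fun ε hε => Pool.Agent.H93.RS.rs ε hε) ρ h0 h1

end Pool.Agent.H27.RU
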