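import Pool.Agent.H27.RU.Mom
import Pool.Agent.H99.GB.Fex
import Pool.Agent.H99.GB.Mv
import Pool.Agent.H24.TL.Gcr

/-!
# [H27 RU FRS]  the fourth moment of the test function from the number of quadruples

PROOF. `ph H q x = ∑_{1 ≤ a < q} fc(q,a) e(xa/q)`; `a = k` (`2k ≤ q`) and `a = q - k` (`2k < q`), `|fc| ≤ 1/(2k)`. So
`G = ∑_{k ≤ R} (1/k) (S⁺_k + S⁻_k)`, `hol4`, `mom`.
-/

set_option autoImplicit false

namespace Pool.Agent.H27.RU

open Finset Pool.Agent.H24.AB Pool.Agent.H99.GB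

theorem frs_kk (h : ℕ) (θ : ℝ) (m : ℤ) (h1 : |θ - m| ≤ 1 / 2) (h0 : θ - m ≠ 0) :
    ‖KK h θ‖ ≤ 1 / (2 * |θ - m|) := by
  have h2 : KK h θ = ee θ * ∑ x ∈ range h, ee (x * θ) := by
    unfold KK
    have h3 : Icc 1 h = (range h).image (fun x => x + 1) := by
      ext a
      simp only [mem_Icc, mem_image, mem_range]
      constructor
      · rintro ⟨h, h'⟩
        exact ⟨a - 1, by omega, by omega⟩
      · rintro ⟨b, hb, rfl⟩
        omega
    rw [h3, Finset.sum_image (fun a _ b _ hab => by simpa using hab), Finset.mul_sum]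
    refine Finset.sum_congr rfl fun x _ => ?_
    rw [← ee_add]
    congr 1
    push_cast
    ring
  rw [h2, norm_mul, ee_norm, one_mul]
  have h3 := dk_bound h θ m h1 h0
  have h4 : 0 < |θ - m| := abs_pos.2 h0
  have h5 : (1 : ℝ) / (4 * (θ - m) ^ 2) = (1 / (2 * |θ - m|)) ^ 2 := by
    rw [← sq_abs (θ - m)]
    field_simp
    norm_num
  rw [h5] at h3
  exact le_of_sq_le_sq h3 (by positivity)

theorem frs_fc (H q k : ℕ) (hk : 1 ≤ k) (hkq : 2 * k ≤ q) : ‖(k : ℂ) * fc H ⟨q, k⟩‖ ≤ 1 := by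
  have hk0 : (0 : ℝ) < k := by exact_mod_cast hk
  have hq0 : (0 : ℝ) < q := by exact_mod_cast (by omega : 0 < q)
  have h2 : 2 * (k : ℝ) ≤ q := by exact_mod_cast hkq
  have h1 : |(k : ℝ) / q - ((0 : ℤ) : ℝ)| = (k : ℝ) / q := by
    rw [Int.cast_zero, sub_zero, abs_of_nonneg (by positivity)]
  have h3 := frs_kk (H % q) ((k : ℝ) / q) 0 (by rw [h1, div_le_div_iff₀ hq0 (by norm_num)]; linarith)
    (by rw [Int.cast_zero, sub_zero]; positivity)
  rw [h1] at h3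
  unfold fc
  rw [norm_mul, norm_mul, norm_div, norm_one, Complex.norm_natCast, Complex.norm_natCast]
  calc (k : ℝ) * (1 / q * ‖KK (H % q) ((k : ℝ) / q)‖) ≤ k * (1 / q * (1 / (2 * (k / q)))) := by gcongr
    _ = 1 / 2 := by field_simp
    _ ≤ 1 := by norm_num

theorem frs_fc2 (H q k : ℕ) (hk : 1 ≤ k) (hkq : 2 * k < q) : ‖(k : ℂ) * fc H ⟨q, q - k⟩‖ ≤ 1 := by
  have hk0 : (0 : ℝ) < k := by exact_mod_cast hk
  have hq0 : (0 : ℝ) < q := by exact_mod_cast (by omega : 0 < q)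
  have h2 : 2 * (k : ℝ) ≤ q := by exact_mod_cast hkq.le
  have h4 : (((q - k : ℕ) : ℝ)) / q - ((1 : ℤ) : ℝ) = -((k : ℝ) / q) := by
    rw [Nat.cast_sub (by omega), Int.cast_one]
    field_simp
    ring
  have h1 : |(((q - k : ℕ) : ℝ)) / q - ((1 : ℤ) : ℝ)| = (k : ℝ) / q := by
    rw [h4, abs_neg, abs_of_nonneg (by positivity)]
  have h3 := frs_kk (H % q) ((((q - k : ℕ) : ℝ)) / q) 1 (by rw [h1, div_le_div_iff₀ hq0 (by norm_num)]; linarith)
    (by rw [h4, neg_ne_zero]; positivity)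
  rw [h1] at h3
  unfold fc
  rw [norm_mul, norm_mul, norm_div, norm_one, Complex.norm_natCast, Complex.norm_natCast]
  calc (k : ℝ) * (1 / q * ‖KK (H % q) ((((q - k : ℕ) : ℝ)) / q)‖) ≤ k * (1 / q * (1 / (2 * (k / q)))) := by gcongr
    _ = 1 / 2 := by field_simp
    _ ≤ 1 := by norm_num

theorem frs_split (R q : ℕ) (hq1 : 1 ≤ q) (hq : q ≤ 2 * R) (f : ℕ → ℂ) :
    ∑ a ∈ Ico 1 q, f a = ∑ k ∈ Icc 1 R, ((if 2 * k ≤ q then f k else 0) + if 2 * k < q then f (q - k) else 0) := by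
  rw [← Finset.sum_filter_add_sum_filter_not (Ico 1 q) (fun a => 2 * a ≤ q) f, Finset.sum_add_distrib]
  congr 1
  · rw [← Finset.sum_filter]
    refine Finset.sum_congr ?_ fun _ _ => rfl
    ext a
    simp only [mem_filter, mem_Ico, mem_Icc]
    omega
  · rw [← Finset.sum_filter]
    refine Finset.sum_nbij' (fun a => q - a) (fun k => q - k) ?_ ?_ ?_ ?_ ?_
    · intro a ha
      simp only [mem_filter, mem_Ico] at ha
      simp only [mem_filter, mem_Icc]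
      omega
    · intro a ha
      simp only [mem_filter, mem_Icc] at ha
      simp only [mem_filter, mem_Ico]
      omega
    · intro a ha
      simp only [mem_filter, mem_Ico] at ha
      omega
    · intro a ha
      simp only [mem_filter, mem_Icc] at ha
      omega
    · intro a ha
      simp only [mem_filter, mem_Ico] at ha
      have : q - (q - a) = a := by omega
      rw [this]

/-- the two sums of one `k` -/
noncomputable def Sp (H R k : ℕ) (x : ℕ) : ℂ :=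
  ∑ q ∈ (QQ R).filter (fun q => 2 * k ≤ q), ((k : ℂ) * fc H ⟨q, k⟩) * ee ((x : ℝ) * (1 * ((k : ℝ) / q)))

noncomputable def Sm (H R k : ℕ) (x : ℕ) : ℂ :=
  ∑ q ∈ (QQ R).filter (fun q => 2 * k < q), ((k : ℂ) * fc H ⟨q, q - k⟩) * ee ((x : ℝ) * (-1 * ((k : ℝ) / q)))

theorem frs_G (H R x : ℕ) : ((G (QQ R) H x : ℝ) : ℂ) =
    ∑ k ∈ Icc 1 R, ((1 / (k : ℂ)) * Sp H R k x + (1 / (k : ℂ)) * Sm H R k x) := by
  unfold G
  rw [Complex.ofReal_sum]
  have h1 : ∀ q ∈ QQ R, ((ph H q x : ℝ) : ℂ) = ∑ k ∈ Icc 1 R,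
      ((if 2 * k ≤ q then fc H ⟨q, k⟩ * ee ((x : ℝ) * ((k : ℝ) / q)) else 0) +
        if 2 * k < q then fc H ⟨q, q - k⟩ * ee ((x : ℝ) * (((q - k : ℕ) : ℝ) / q)) else 0) := by
    intro q hq
    unfold QQ at hq
    rw [mem_filter, mem_Ioc] at hq
    rw [fex_exp H q x hq.2.pos]
    exact frs_split R q hq.2.pos hq.1.2 (fun a => fc H ⟨q, a⟩ * ee ((x : ℝ) * ((a : ℝ) / q)))
  rw [Finset.sum_congr rfl h1, Finset.sum_comm]
  refine Finset.sum_congr rfl fun k hk => ?_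
  rw [mem_Icc] at hk
  have hk0 : (k : ℂ) ≠ 0 := by
    have : k ≠ 0 := by omega
    exact_mod_cast this
  rw [Finset.sum_add_distrib]
  congr 1
  · unfold Sp
    rw [← Finset.sum_filter, Finset.mul_sum]
    refine Finset.sum_congr rfl fun q _ => ?_
    rw [one_mul, ← mul_assoc, ← mul_assoc, one_div, inv_mul_cancel₀ hk0, one_mul]
  · unfold Sm
    rw [← Finset.sum_filter, Finset.mul_sum]
    refine Finset.sum_congr rfl fun q hq => ?_
    rw [mem_filter] at hq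
    have hq0 : (q : ℝ) ≠ 0 := by
      have : q ≠ 0 := by omega
      exact_mod_cast this
    have h2 : (x : ℝ) * (((q - k : ℕ) : ℝ) / q) = ((x : ℤ) : ℝ) + (x : ℝ) * (-1 * ((k : ℝ) / q)) := by
      rw [Nat.cast_sub (by omega)]
      push_cast
      field_simp
      ring
    have h3 : ∀ a b : ℂ, a * b = 1 / (k : ℂ) * ((k : ℂ) * a * b) := fun a b => by field_simp
    rw [h2, ee_add, ee_int, one_mul]
    exact h3 _ _

theorem frs_W (R : ℕ) (hR : 1 ≤ R) : ∑ k ∈ Icc 1 R, 1 / (k : ℝ) ≤ 1 + Real.log ((R : ℝ) ^ 2 + 1) := by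
  have h1 := harmonic_le_one_add_log R
  have h2 : ((harmonic R : ℚ) : ℝ) = ∑ k ∈ Icc 1 R, 1 / (k : ℝ) := by
    rw [harmonic_eq_sum_Icc]
    push_cast
    refine Finset.sum_congr rfl fun n _ => ?_
    rw [one_div]
  rw [h2] at h1
  have hR1 : (1 : ℝ) ≤ R := by exact_mod_cast hR
  have h3 : Real.log R ≤ Real.log ((R : ℝ) ^ 2 + 1) := Real.log_le_log (by linarith) (by nlinarith)
  linarith

/-- the fourth moment -/
theorem frs (X H R : ℕ) (hR : 1 ≤ R) (hX : R ^ 3 ≤ X) :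
    ∑ x ∈ Ioc X (2 * X), (G (QQ R) H x) ^ 4 ≤ 64 * X * (1 + Real.log ((R : ℝ) ^ 2 + 1)) ^ 5 * NN R := by
  obtain ⟨W, hW⟩ : ∃ W : ℝ, W = ∑ k ∈ Icc 1 R, 1 / (k : ℝ) := ⟨_, rfl⟩
  obtain ⟨L, hL⟩ : ∃ L : ℝ, L = 1 + Real.log ((R : ℝ) ^ 2 + 1) := ⟨_, rfl⟩
  have hWL : W ≤ L := by rw [hW, hL]; exact frs_W R hR
  have hW0 : 0 ≤ W := by rw [hW]; exact Finset.sum_nonneg fun _ _ => by positivity
  have hR1 : (1 : ℝ) ≤ R := by exact_mod_cast hR
  have hL0 : 0 ≤ L := hW0.trans hWL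
  have hN0 : 0 ≤ NN R := Nat.cast_nonneg _
  -- pointwise
  have hpt : ∀ x : ℕ, (G (QQ R) H x) ^ 4 ≤
      W ^ 3 * ∑ k ∈ Icc 1 R, 1 / (k : ℝ) * (8 * (‖Sp H R k x‖ ^ 4 + ‖Sm H R k x‖ ^ 4)) := by
    intro x
    have h1 : |G (QQ R) H x| ≤ ∑ k ∈ Icc 1 R, 1 / (k : ℝ) * (‖Sp H R k x‖ + ‖Sm H R k x‖) := by
      have h2 : |G (QQ R) H x| = ‖((G (QQ R) H x : ℝ) : ℂ)‖ := by
        rw [Complex.norm_real, Real.norm_eq_abs]
      rw [h2, frs_G]
      refine (norm_sum_le _ _).trans (Finset.sum_le_sum fun k _ => ?_)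
      refine (norm_add_le _ _).trans (le_of_eq ?_)
      rw [norm_mul, norm_mul, norm_div, norm_one, Complex.norm_natCast]
      ring
    have h3 : (G (QQ R) H x) ^ 4 = |G (QQ R) H x| ^ 4 := by
      rw [pow_abs, abs_of_nonneg (by positivity)]
    rw [h3]
    refine (pow_le_pow_left₀ (abs_nonneg _) h1 4).trans ?_
    refine (hol4 (Icc 1 R) (fun k => 1 / (k : ℝ)) (fun k => ‖Sp H R k x‖ + ‖Sm H R k x‖)
      (fun k _ => by positivity)).trans ?_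
    rw [← hW]
    refine mul_le_mul_of_nonneg_left (Finset.sum_le_sum fun k _ => ?_) (by positivity)
    refine mul_le_mul_of_nonneg_left ?_ (by positivity)
    have h4 := add_pow_le (norm_nonneg (Sp H R k x)) (norm_nonneg (Sm H R k x)) 4
    norm_num at h4
    exact h4
  -- the moments of one k
  have hmem : ∀ q ∈ QQ R, q ∈ Ioc R (2 * R) := by
    intro q hq
    unfold QQ at hq
    exact (mem_filter.1 hq).1
  have hmp : ∀ k ∈ Icc 1 R, ∑ x ∈ Ioc X (2 * X), ‖Sp H R k x‖ ^ 4 ≤ 4 * X * L * NN R := by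
    intro k hk
    rw [mem_Icc] at hk
    rw [hL]
    exact mom X R k 1 (by norm_num) hR hk.1 hX ((QQ R).filter (fun q => 2 * k ≤ q))
      (fun q hq => ⟨hmem q (mem_filter.1 hq).1, (mem_filter.1 hq).2⟩) (fun q => (k : ℂ) * fc H ⟨q, k⟩)
      (fun q hq => frs_fc H q k hk.1 (mem_filter.1 hq).2)
  have hmm : ∀ k ∈ Icc 1 R, ∑ x ∈ Ioc X (2 * X), ‖Sm H R k x‖ ^ 4 ≤ 4 * X * L * NN R := by
    intro k hk
    rw [mem_Icc] at hk
    rw [hL]
    exact mom X R k (-1) (by norm_num) hR hk.1 hX ((QQ R).filter (fun q => 2 * k < q))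
      (fun q hq => ⟨hmem q (mem_filter.1 hq).1, (mem_filter.1 hq).2.le⟩) (fun q => (k : ℂ) * fc H ⟨q, q - k⟩)
      (fun q hq => frs_fc2 H q k hk.1 (mem_filter.1 hq).2)
  refine (Finset.sum_le_sum fun x _ => hpt x).trans ?_
  rw [← Finset.mul_sum, Finset.sum_comm]
  have h5 : ∑ k ∈ Icc 1 R, ∑ x ∈ Ioc X (2 * X), 1 / (k : ℝ) * (8 * (‖Sp H R k x‖ ^ 4 + ‖Sm H R k x‖ ^ 4)) ≤
      W * (64 * X * L * NN R) := by
    rw [hW, Finset.sum_mul]
    refine Finset.sum_le_sum fun k hk => ?_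
    rw [← Finset.mul_sum]
    refine mul_le_mul_of_nonneg_left ?_ (by positivity)
    rw [← Finset.mul_sum, Finset.sum_add_distrib]
    have h6 := hmp k hk
    have h7 := hmm k hk
    linarith
  refine (mul_le_mul_of_nonneg_left h5 (by positivity)).trans ?_
  have h8 : W ^ 3 * (W * (64 * X * L * NN R)) = W ^ 4 * (64 * X * L * NN R) := by ring
  rw [h8, ← hL]
  have h9 : W ^ 4 ≤ L ^ 4 := pow_le_pow_left₀ hW0 hWL 4
  calc W ^ 4 * (64 * X * L * NN R) ≤ L ^ 4 * (64 * X * L * NN R) :=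
        mul_le_mul_of_nonneg_right h9 (by positivity)
    _ = 64 * X * L ^ 5 * NN R := by ring

/-- the hypothesis of `gcr` from the number of quadruples -/
theorem fm_of (hrs : ∀ ε : ℝ, 0 < ε → ∃ C : ℝ, ∀ R : ℕ, 1 ≤ R → NN R ≤ C * (R : ℝ) ^ (2 + ε)) (ρ : ℝ) (h0 : 0 < ρ)
    (h1 : ρ < 1 / 3) : Pool.Agent.H24.TL.Fm ρ := by
  intro ε hε
  obtain ⟨C, hC⟩ := hrs ε hε
  obtain ⟨X1, hX1⟩ := mv_log (64 * max C 0) (ε / 2) (by positivity) (by positivity) 5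
  refine ⟨max X1 1, fun X hX H _ _ => ?_⟩
  have hX1' : X1 ≤ X := (le_max_left _ _).trans hX
  have hXone : 1 ≤ X := (le_max_right _ _).trans hX
  have hXr : (1 : ℝ) ≤ X := by exact_mod_cast hXone
  have hX0 : (0 : ℝ) < X := by linarith
  obtain ⟨R, hR⟩ : ∃ R : ℕ, R = ⌊(X : ℝ) ^ ρ⌋₊ := ⟨_, rfl⟩
  rw [← hR]
  have hRy : (R : ℝ) ≤ (X : ℝ) ^ ρ := by rw [hR]; exact Nat.floor_le (by positivity)
  have hR1 : 1 ≤ R := by
    rw [hR]
    apply Nat.le_floor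
    push_cast
    exact Real.one_le_rpow hXr h0.le
  have hR1r : (1 : ℝ) ≤ R := by exact_mod_cast hR1
  have hR3r : (R : ℝ) ^ 3 ≤ X := by
    calc (R : ℝ) ^ 3 ≤ ((X : ℝ) ^ ρ) ^ 3 := pow_le_pow_left₀ (by linarith) hRy 3
      _ = (X : ℝ) ^ (ρ * 3) := by
          rw [← Real.rpow_natCast, ← Real.rpow_mul hX0.le]
          norm_num
      _ ≤ (X : ℝ) ^ (1 : ℝ) := Real.rpow_le_rpow_of_exponent_le hXr (by linarith)
      _ = X := Real.rpow_one _
  have hR3 : R ^ 3 ≤ X := by exact_mod_cast hR3r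
  refine (frs X H R hR1 hR3).trans ?_
  have h2 : NN R ≤ max C 0 * (X : ℝ) ^ (ρ * (2 + ε)) := by
    refine (hC R hR1).trans ?_
    calc C * (R : ℝ) ^ (2 + ε) ≤ max C 0 * (R : ℝ) ^ (2 + ε) :=
          mul_le_mul_of_nonneg_right (le_max_left _ _) (by positivity)
      _ ≤ max C 0 * ((X : ℝ) ^ ρ) ^ (2 + ε) :=
          mul_le_mul_of_nonneg_left (Real.rpow_le_rpow (by linarith) hRy (by linarith)) (le_max_right _ _)
      _ = max C 0 * (X : ℝ) ^ (ρ * (2 + ε)) := by rw [← Real.rpow_mul hX0.le]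
  have h3 : 1 + Real.log ((R : ℝ) ^ 2 + 1) ≤ 1 + Real.log (3 * X) := by
    have h4 : (R : ℝ) ^ 2 ≤ (R : ℝ) ^ 3 := pow_le_pow_right₀ hR1r (by norm_num)
    have h5 : Real.log ((R : ℝ) ^ 2 + 1) ≤ Real.log (3 * X) := Real.log_le_log (by positivity) (by linarith)
    linarith
  have h4 : 0 ≤ 1 + Real.log ((R : ℝ) ^ 2 + 1) := by
    have := Real.log_nonneg (by nlinarith : (1 : ℝ) ≤ (R : ℝ) ^ 2 + 1)
    linarith
  have hN0 : 0 ≤ NN R := Nat.cast_nonneg _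
  have hm0 : 0 ≤ max C 0 := le_max_right _ _
  calc 64 * X * (1 + Real.log ((R : ℝ) ^ 2 + 1)) ^ 5 * NN R
      ≤ 64 * X * (1 + Real.log (3 * X)) ^ 5 * (max C 0 * (X : ℝ) ^ (ρ * (2 + ε))) := by
        have h5 : (1 + Real.log ((R : ℝ) ^ 2 + 1)) ^ 5 ≤ (1 + Real.log (3 * X)) ^ 5 := pow_le_pow_left₀ h4 h3 5
        have h6 : 64 * X * (1 + Real.log ((R : ℝ) ^ 2 + 1)) ^ 5 ≤ 64 * X * (1 + Real.log (3 * X)) ^ 5 :=
          mul_le_mul_of_nonneg_left h5 (by positivity)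
        have h7 : 0 ≤ 64 * (X : ℝ) * (1 + Real.log (3 * X)) ^ 5 := by
          have : 0 ≤ 1 + Real.log (3 * X) := h4.trans h3
          positivity
        exact mul_le_mul h6 h2 hN0 h7
    _ = X * (64 * max C 0 * (1 + Real.log (3 * X)) ^ 5) * (X : ℝ) ^ (ρ * (2 + ε)) := by ring
    _ ≤ X * (X : ℝ) ^ (ε / 2) * (X : ℝ) ^ (ρ * (2 + ε)) := by
        have := hX1 X hX1'
        gcongr
    _ = (X : ℝ) ^ (1 + ε / 2 + ρ * (2 + ε)) := by
        rw [Real.rpow_add hX0, Real.rpow_add hX0, Real.rpow_one]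
    _ ≤ (X : ℝ) ^ (1 + 2 * ρ + ε) := by
        apply Real.rpow_le_rpow_of_exponent_le hXr
        nlinarith

end Pool.Agent.H27.RU
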