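import Mathlib

/-!
# [H27 RU CELL]  Schur test on cells
-/

set_option autoImplicit false

namespace Pool.Agent.H27.RU

open Finset

/-- sums over pairs of a function of the difference of the cells, against the pairs in one cell -/
theorem cell {ι : Type} [DecidableEq ι] (s : Finset ι) (c : ι → ℤ) (K : ℤ → ℝ) (hK : ∀ d, 0 ≤ K d) (D : Finset ℤ)
    (hD : ∀ i ∈ s, ∀ j ∈ s, c i - c j ∈ D) :
    ∑ i ∈ s, ∑ j ∈ s, K (c i - c j) ≤
      (∑ d ∈ D, K d) * (((s ×ˢ s).filter (fun p => c p.1 = c p.2)).card : ℝ) := by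
  classical
  set L : Finset ℤ := s.image c with hL
  set n : ℤ → ℝ := fun l => ((s.filter (fun i => c i = l)).card : ℝ) with hn
  have hn0 : ∀ l, 0 ≤ n l := fun l => Nat.cast_nonneg _
  have h1 : ∑ i ∈ s, ∑ j ∈ s, K (c i - c j) = ∑ l ∈ L, ∑ l' ∈ L, n l * n l' * K (l - l') := by
    rw [Finset.sum_comp (fun l => ∑ j ∈ s, K (l - c j)) c]
    refine Finset.sum_congr rfl fun l _ => ?_
    rw [Finset.sum_comp (fun l' => K (l - l')) c, nsmul_eq_mul, Finset.mul_sum]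
    refine Finset.sum_congr rfl fun l' _ => ?_
    rw [nsmul_eq_mul]
    ring
  have h2 : (((s ×ˢ s).filter (fun p => c p.1 = c p.2)).card : ℝ) = ∑ l ∈ L, n l ^ 2 := by
    rw [Finset.card_filter, Finset.sum_product]
    push_cast
    have h3 : ∀ i ∈ s, (∑ j ∈ s, if c i = c j then (1 : ℝ) else 0) = n (c i) := by
      intro i _
      simp only [hn]
      rw [← Finset.sum_filter, Finset.sum_const, nsmul_eq_mul, mul_one]
      congr 2
      ext j
      simp only [mem_filter]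
      constructor
      · rintro ⟨h, h'⟩; exact ⟨h, h'.symm⟩
      · rintro ⟨h, h'⟩; exact ⟨h, h'.symm⟩
    rw [Finset.sum_congr rfl h3, Finset.sum_comp (fun l => n l) c]
    refine Finset.sum_congr rfl fun l _ => ?_
    rw [nsmul_eq_mul, sq]
  have hrow : ∀ l ∈ L, ∑ l' ∈ L, K (l - l') ≤ ∑ d ∈ D, K d := by
    intro l hl
    have h4 : ∑ l' ∈ L, K (l - l') = ∑ d ∈ L.image (fun l' => l - l'), K d :=
      (Finset.sum_image (fun a _ b _ hab => by simpa using hab)).symm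
    rw [h4]
    refine Finset.sum_le_sum_of_subset_of_nonneg ?_ fun _ _ _ => hK _
    intro d hd
    rw [mem_image] at hd
    obtain ⟨l', hl', rfl⟩ := hd
    rw [hL, mem_image] at hl hl'
    obtain ⟨i, hi, rfl⟩ := hl
    obtain ⟨j, hj, rfl⟩ := hl'
    exact hD i hi j hj
  have hcol : ∀ l' ∈ L, ∑ l ∈ L, K (l - l') ≤ ∑ d ∈ D, K d := by
    intro l' hl'
    have h4 : ∑ l ∈ L, K (l - l') = ∑ d ∈ L.image (fun l => l - l'), K d :=
      (Finset.sum_image (fun a _ b _ hab => by simpa using hab)).symm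
    rw [h4]
    refine Finset.sum_le_sum_of_subset_of_nonneg ?_ fun _ _ _ => hK _
    intro d hd
    rw [mem_image] at hd
    obtain ⟨l, hl, rfl⟩ := hd
    rw [hL, mem_image] at hl hl'
    obtain ⟨i, hi, rfl⟩ := hl
    obtain ⟨j, hj, rfl⟩ := hl'
    exact hD i hi j hj
  rw [h1, h2]
  have h5 : ∑ l ∈ L, ∑ l' ∈ L, n l * n l' * K (l - l') ≤
      ∑ l ∈ L, ∑ l' ∈ L, (n l ^ 2 * K (l - l') / 2 + n l' ^ 2 * K (l - l') / 2) := by
    refine Finset.sum_le_sum fun l _ => Finset.sum_le_sum fun l' _ => ?_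
    have h6 : n l * n l' ≤ (n l ^ 2 + n l' ^ 2) / 2 := by nlinarith [sq_nonneg (n l - n l')]
    have h7 := mul_le_mul_of_nonneg_right h6 (hK (l - l'))
    linarith
  refine h5.trans ?_
  have h8 : ∑ l ∈ L, ∑ l' ∈ L, (n l ^ 2 * K (l - l') / 2 + n l' ^ 2 * K (l - l') / 2) =
      (∑ l ∈ L, n l ^ 2 * ∑ l' ∈ L, K (l - l')) / 2 + (∑ l' ∈ L, n l' ^ 2 * ∑ l ∈ L, K (l - l')) / 2 := by
    simp only [Finset.sum_add_distrib]
    congr 1
    · rw [Finset.sum_div]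
      refine Finset.sum_congr rfl fun l _ => ?_
      rw [Finset.mul_sum, Finset.sum_div]
    · rw [Finset.sum_comm, Finset.sum_div]
      refine Finset.sum_congr rfl fun l _ => ?_
      rw [Finset.mul_sum, Finset.sum_div]
  rw [h8]
  have h9 : ∑ l ∈ L, n l ^ 2 * ∑ l' ∈ L, K (l - l') ≤ ∑ l ∈ L, n l ^ 2 * ∑ d ∈ D, K d :=
    Finset.sum_le_sum fun l hl => mul_le_mul_of_nonneg_left (hrow l hl) (sq_nonneg _)
  have h10 : ∑ l' ∈ L, n l' ^ 2 * ∑ l ∈ L, K (l - l') ≤ ∑ l ∈ L, n l ^ 2 * ∑ d ∈ D, K d :=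
    Finset.sum_le_sum fun l hl => mul_le_mul_of_nonneg_left (hcol l hl) (sq_nonneg _)
  rw [← Finset.sum_mul] at h9 h10
  linarith

/-- two Cauchy inequalities -/
theorem hol4 {ι : Type} (s : Finset ι) (w z : ι → ℝ) (hw : ∀ i ∈ s, 0 ≤ w i) :
    (∑ i ∈ s, w i * z i) ^ 4 ≤ (∑ i ∈ s, w i) ^ 3 * ∑ i ∈ s, w i * z i ^ 4 := by
  have hW : 0 ≤ ∑ i ∈ s, w i := Finset.sum_nonneg hw
  have h1 : (∑ i ∈ s, w i * z i) ^ 2 ≤ (∑ i ∈ s, w i) * ∑ i ∈ s, w i * z i ^ 2 :=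
    Finset.sum_sq_le_sum_mul_sum_of_sq_le_mul s hw (fun i hi => mul_nonneg (hw i hi) (sq_nonneg _))
      (fun i _ => le_of_eq (by ring))
  have h2 : (∑ i ∈ s, w i * z i ^ 2) ^ 2 ≤ (∑ i ∈ s, w i) * ∑ i ∈ s, w i * z i ^ 4 :=
    Finset.sum_sq_le_sum_mul_sum_of_sq_le_mul s hw (fun i hi => mul_nonneg (hw i hi) (by positivity))
      (fun i _ => le_of_eq (by ring))
  have h3 : (∑ i ∈ s, w i * z i) ^ 4 = ((∑ i ∈ s, w i * z i) ^ 2) ^ 2 := by ring
  rw [h3]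
  calc ((∑ i ∈ s, w i * z i) ^ 2) ^ 2 ≤ ((∑ i ∈ s, w i) * ∑ i ∈ s, w i * z i ^ 2) ^ 2 :=
        pow_le_pow_left₀ (sq_nonneg _) h1 2
    _ = (∑ i ∈ s, w i) ^ 2 * (∑ i ∈ s, w i * z i ^ 2) ^ 2 := by ring
    _ ≤ (∑ i ∈ s, w i) ^ 2 * ((∑ i ∈ s, w i) * ∑ i ∈ s, w i * z i ^ 4) :=
        mul_le_mul_of_nonneg_left h2 (sq_nonneg _)
    _ = (∑ i ∈ s, w i) ^ 3 * ∑ i ∈ s, w i * z i ^ 4 := by ring

/-- the kernel sum -/
theorem ker_sum (M : ℕ) : ∑ d ∈ Icc (-(M : ℤ)) M, 2 / (1 + |(d : ℝ)|) ≤ 4 * (1 + Real.log (M + 1)) := by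
  classical
  have h0 : Icc (-(M : ℤ)) M ⊆ (range (M + 1)).image (fun n : ℕ => (n : ℤ)) ∪
      (range (M + 1)).image (fun n : ℕ => -(n : ℤ)) := by
    intro d hd
    rw [mem_Icc] at hd
    rw [mem_union, mem_image, mem_image]
    rcases le_total 0 d with h | h
    · left
      exact ⟨d.toNat, mem_range.2 (by omega), by omega⟩
    · right
      exact ⟨(-d).toNat, mem_range.2 (by omega), by omega⟩
  have hpos : ∀ d : ℤ, 0 ≤ 2 / (1 + |(d : ℝ)|) := fun d => by positivity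
  refine (Finset.sum_le_sum_of_subset_of_nonneg h0 fun _ _ _ => hpos _).trans ?_
  have h1 := Finset.sum_union_inter (s₁ := (range (M + 1)).image (fun n : ℕ => (n : ℤ)))
    (s₂ := (range (M + 1)).image (fun n : ℕ => -(n : ℤ))) (f := fun d : ℤ => 2 / (1 + |(d : ℝ)|))
  have h2 : 0 ≤ ∑ d ∈ (range (M + 1)).image (fun n : ℕ => (n : ℤ)) ∩
      (range (M + 1)).image (fun n : ℕ => -(n : ℤ)), 2 / (1 + |(d : ℝ)|) :=
    Finset.sum_nonneg fun d _ => hpos d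
  have h3 : ∑ d ∈ (range (M + 1)).image (fun n : ℕ => (n : ℤ)), 2 / (1 + |(d : ℝ)|) =
      ∑ n ∈ range (M + 1), 2 / (1 + (n : ℝ)) := by
    rw [Finset.sum_image (fun a _ b _ hab => by simpa using hab)]
    refine Finset.sum_congr rfl fun n _ => ?_
    rw [Int.cast_natCast, abs_of_nonneg (Nat.cast_nonneg n)]
  have h4 : ∑ d ∈ (range (M + 1)).image (fun n : ℕ => -(n : ℤ)), 2 / (1 + |(d : ℝ)|) =
      ∑ n ∈ range (M + 1), 2 / (1 + (n : ℝ)) := by
    rw [Finset.sum_image (fun a _ b _ hab => by simpa using hab)]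
    refine Finset.sum_congr rfl fun n _ => ?_
    rw [Int.cast_neg, Int.cast_natCast, abs_neg, abs_of_nonneg (Nat.cast_nonneg n)]
  have h5 : ∑ n ∈ range (M + 1), 2 / (1 + (n : ℝ)) ≤ 2 * (1 + Real.log (M + 1)) := by
    have h6 := harmonic_le_one_add_log (M + 1)
    have h7 : ((harmonic (M + 1) : ℚ) : ℝ) = ∑ n ∈ range (M + 1), 1 / (1 + (n : ℝ)) := by
      unfold harmonic
      push_cast
      refine Finset.sum_congr rfl fun n _ => ?_
      rw [one_div, add_comm]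
    rw [h7] at h6
    have h8 : ∑ n ∈ range (M + 1), 2 / (1 + (n : ℝ)) = 2 * ∑ n ∈ range (M + 1), 1 / (1 + (n : ℝ)) := by
      rw [Finset.mul_sum]
      refine Finset.sum_congr rfl fun n _ => ?_
      ring
    rw [h8]
    push_cast at h6
    linarith
  linarith

end Pool.Agent.H27.RU
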