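import Pool.Agent.H99.GB.Defs

/-!
# [H27 RU DEFS]  fourth moment of the test function, interface

`F4 r`: for `R ≤ X^r` the fourth moment of `G (QQ R) H` over `(X, 2X]` is at most `C X^(1+e) R^2`. `F4 (1/4)` is the additive
large sieve (`four`), `F4 (1/3)` is the spacing of `1/a + 1/b` (Robert - Sargos).
-/

set_option autoImplicit false

namespace Pool.Agent.H27.RU

open Finset Pool.Agent.H99.GB

/-- the fourth moment for `R ≤ X^r` -/
def F4 (r : ℝ) : Prop := ∀ e : ℝ, 0 < e → ∃ C : ℝ, 0 < C ∧ ∀ X H R : ℕ, 1 ≤ X → 1 ≤ R → (R : ℝ) ≤ (X : ℝ) ^ r →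
  ∑ x ∈ Ioc X (2 * X), (G (QQ R) H x) ^ 4 ≤ C * (X : ℝ) ^ (1 + e) * (R : ℝ) ^ 2

end Pool.Agent.H27.RU
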