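import Pool.Agent.H27.RU.Defs
import Pool.Agent.H48.WN.Defs
import Pool.Agent.H24.TS.Mvt
import Pool.Agent.H99.GB.Cov
import Pool.Agent.H99.GB.Hol
import Pool.Agent.H99.GB.Trf
import Pool.Agent.H67.VU.Pnt3

/-!
# [H27 RU GBE]  THEOREM GB for every length, parametric in the fourth moment

`H99/GB/Fin` with `F4 r` in place of `four`, `mvt` (`ρ < 1/3`) in place of `mv`, and `M(H) = ∑_(q ∈ QQ R) cq H q/(q-1) ≥ |Q| X^(-e)`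
for EVERY `H` (`H24/TL/Hev`) in place of `hq`.
-/

set_option autoImplicit false

namespace Pool.Agent.H27.RU

open Finset Pool.Agent.H99.GB Pool.Agent.H48.WN

theorem gbe (r : ℝ) (hr : 1 / 4 ≤ r) (hr3 : r ≤ 1 / 3) (h4 : F4 r) (θ ε : ℝ) (hθ0 : 0 < θ) (hθ : θ < 1 / 2)
    (hε : 0 < ε) : ∃ (δ : ℝ) (X0 : ℕ), 0 < δ ∧ ∀ X : ℕ, X0 ≤ X → ∀ H : ℕ, (X : ℝ) ^ (θ - δ) ≤ H →
      (H : ℝ) ≤ (X : ℝ) ^ (θ + δ) →
        (X : ℝ) ^ (1 + (2 * min θ r - θ) / 3 - ε) ≤ ∑ n ∈ Ioc X (2 * X), |EI n H| := by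
  sorry

end Pool.Agent.H27.RU
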