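import Pool.Agent.H24.TL.Gcr
import Pool.Agent.H27.RU.Fm3

/-!
# [H27 RU GBR]  theorem GB for EVERY length, from the fourth moment with moduli up to `X^ρ`, `ρ < 1/3`

`gcr` (`H24/TL/Gcr`) and `fm3` with `ρ = min θ (1/3) - e`, `2ρ - θ = min θ (2/3 - θ) - 2e`.
-/

set_option autoImplicit false

namespace Pool.Agent.H27.RU

open Finset Pool.Agent.H48.WN

theorem gbr (θ ε : ℝ) (h0 : 0 < θ) (h1 : θ < 1 / 2) (hε : 0 < ε) :
    ∃ (δ : ℝ) (X0 : ℕ), 0 < δ ∧ ∀ X : ℕ, X0 ≤ X → ∀ H : ℕ, (X : ℝ) ^ (θ - δ) ≤ H → (H : ℝ) ≤ (X : ℝ) ^ (θ + δ) →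
      (X : ℝ) ^ (1 + min θ (2 / 3 - θ) / 3 - ε) ≤ ∑ n ∈ Ioc X (2 * X), |EI n H| := by
  obtain ⟨m, hm⟩ : ∃ m : ℝ, m = min θ (2 / 3 - θ) := ⟨_, rfl⟩
  rw [← hm]
  have hm0 : 0 < m := by rw [hm]; exact lt_min h0 (by linarith)
  have hm1 : m ≤ θ := by rw [hm]; exact min_le_left _ _
  have hm2 : m ≤ 2 / 3 - θ := by rw [hm]; exact min_le_right _ _
  obtain ⟨e, he0, he1, he2⟩ : ∃ e : ℝ, 0 < e ∧ e ≤ m / 4 ∧ e ≤ ε / 2 :=
    ⟨min (m / 4) (ε / 2), lt_min (by linarith) (by linarith), min_le_left _ _, min_le_right _ _⟩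
  obtain ⟨ρ, hρ⟩ : ∃ ρ : ℝ, ρ = min θ (1 / 3) - e := ⟨_, rfl⟩
  have hρm : 2 * ρ - θ = m - 2 * e := by
    rcases le_total θ (1 / 3) with h | h
    · rw [hρ, min_eq_left h, hm, min_eq_left (by linarith)]
      ring
    · rw [hρ, min_eq_right h, hm, min_eq_right (by linarith)]
      ring
  have hρ0 : 0 < ρ := by linarith
  have hρ4 : ρ < 1 / 3 := by
    have := min_le_right θ (1 / 3)
    linarith
  have hρθ : ρ < θ := by
    have := min_le_left θ (1 / 3)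
    linarith
  obtain ⟨δ, X0, hδ, hX0⟩ := Pool.Agent.H24.TL.gcr θ ρ (ε / 2) (fm3 ρ hρ0 hρ4) hρ0 hρ4 hρθ (by linarith) h1 (by linarith)
  refine ⟨δ, max X0 1, hδ, fun X hX H hH1 hH2 => ?_⟩
  refine le_trans ?_ (hX0 X ((le_max_left _ _).trans hX) H hH1 hH2)
  have hX1 : (1 : ℝ) ≤ X := by exact_mod_cast (le_max_right _ _).trans hX
  refine Real.rpow_le_rpow_of_exponent_le hX1 ?_
  rw [hρm]
  linarith

end Pool.Agent.H27.RU
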