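import Pool.Agent.H27.RU.Cell
import Pool.Agent.H24.AB.LSK

/-!
# [H27 RU MOM]  the fourth moment of `∑_q b_q e(± k x/q)`, one `k`

PROOF. `S² = ∑_i B_i e(x α_i)`, `i = (q1,q2)`, `α_i = ± k (1/q1+1/q2)`, `|α_i - α_j| ≤ 1/2` (`2k ≤ q`, `R < q ≤ 2R`). Geometric
sums `≤ min(X, 1/(2|α_i-α_j|))`, cells `⌊(1/q1+1/q2) R³⌋`, `cell`, `ker_sum`.
-/

set_option autoImplicit false

namespace Pool.Agent.H27.RU

open Finset Pool.Agent.H24.AB

/-- the number of quadruples -/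
noncomputable def NN (R : ℕ) : ℝ :=
  ((((Finset.Ioc R (2 * R)) ×ˢ (Finset.Ioc R (2 * R)) ×ˢ (Finset.Ioc R (2 * R)) ×ˢ (Finset.Ioc R (2 * R))).filter
      (fun q : ℕ × ℕ × ℕ × ℕ => |1 / (q.1 : ℝ) + 1 / (q.2.1 : ℝ) - 1 / (q.2.2.1 : ℝ) - 1 / (q.2.2.2 : ℝ)| ≤
        1 / (R : ℝ) ^ 3)).card : ℝ)

/-- geometric sums -/
theorem geo (X : ℕ) (α : ℝ) (hα : |α| ≤ 1 / 2) :
    ‖∑ x ∈ Ioc X (2 * X), ee (x * α)‖ ≤ X ∧
      (α ≠ 0 → ‖∑ x ∈ Ioc X (2 * X), ee (x * α)‖ ≤ 1 / (2 * |α|)) := by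
  have h1 : ∑ x ∈ Ioc X (2 * X), ee (x * α) = ee ((X + 1 : ℕ) * α) * ∑ x ∈ range X, ee (x * α) := by
    have h2 : Ioc X (2 * X) = (range X).image (fun x => x + (X + 1)) := by
      ext m
      simp only [mem_Ioc, mem_image, mem_range]
      constructor
      · rintro ⟨h, h'⟩
        exact ⟨m - (X + 1), by omega, by omega⟩
      · rintro ⟨a, ha, rfl⟩
        omega
    rw [h2, Finset.sum_image (fun a _ b _ hab => by simpa using hab), Finset.mul_sum]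
    refine Finset.sum_congr rfl fun x _ => ?_
    rw [← ee_add]
    congr 1
    push_cast
    ring
  rw [h1, norm_mul, ee_norm, one_mul]
  refine ⟨dk_trivial X α, fun h0 => ?_⟩
  have h3 := dk_bound X α 0 (by simpa using hα) (by simpa using h0)
  have h4 : 0 < |α| := abs_pos.2 h0
  have h5 : (1 : ℝ) / (4 * (α - ((0 : ℤ) : ℝ)) ^ 2) = (1 / (2 * |α|)) ^ 2 := by
    rw [Int.cast_zero, sub_zero, ← sq_abs α]
    field_simp
    norm_num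
  rw [h5] at h3
  exact le_of_sq_le_sq h3 (by positivity)

/-- expansion of the mean of the fourth power -/
theorem mom_exp (s : Finset ℕ) (Q : Finset ℕ) (a : ℕ → ℝ) (b : ℕ → ℂ) (hb : ∀ q ∈ Q, ‖b q‖ ≤ 1) :
    ∑ x ∈ s, ‖∑ q ∈ Q, b q * ee ((x : ℝ) * a q)‖ ^ 4 ≤
      ∑ i ∈ Q ×ˢ Q, ∑ j ∈ Q ×ˢ Q, ‖∑ x ∈ s, ee ((x : ℝ) * ((a i.1 + a i.2) - (a j.1 + a j.2)))‖ := by
  have h1 : ∀ x : ℕ, (((‖∑ q ∈ Q, b q * ee ((x : ℝ) * a q)‖ ^ 4 : ℝ)) : ℂ) =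
      ∑ i ∈ Q ×ˢ Q, ∑ j ∈ Q ×ˢ Q, (b i.1 * b i.2) * (starRingEnd ℂ) (b j.1 * b j.2) *
        ee ((x : ℝ) * ((a i.1 + a i.2) - (a j.1 + a j.2))) := by
    intro x
    set S : ℂ := ∑ q ∈ Q, b q * ee ((x : ℝ) * a q) with hS
    have h2 : S ^ 2 = ∑ i ∈ Q ×ˢ Q, (b i.1 * b i.2) * ee ((x : ℝ) * (a i.1 + a i.2)) := by
      rw [sq, hS, Finset.sum_mul_sum, Finset.sum_product]
      refine Finset.sum_congr rfl fun p _ => Finset.sum_congr rfl fun q _ => ?_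
      rw [mul_add, ee_add]
      ring
    have h3 : (((‖S‖ ^ 4 : ℝ)) : ℂ) = S ^ 2 * (starRingEnd ℂ) (S ^ 2) := by
      rw [Complex.mul_conj, Complex.normSq_eq_norm_sq, norm_pow]
      congr 1
      ring
    rw [h3, h2, map_sum, Finset.sum_mul_sum]
    refine Finset.sum_congr rfl fun i _ => Finset.sum_congr rfl fun j _ => ?_
    rw [map_mul, ee_conj, mul_sub, sub_eq_add_neg, ee_add]
    ring
  have h4 : (((∑ x ∈ s, ‖∑ q ∈ Q, b q * ee ((x : ℝ) * a q)‖ ^ 4 : ℝ)) : ℂ) =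
      ∑ i ∈ Q ×ˢ Q, ∑ j ∈ Q ×ˢ Q, (b i.1 * b i.2) * (starRingEnd ℂ) (b j.1 * b j.2) *
        ∑ x ∈ s, ee ((x : ℝ) * ((a i.1 + a i.2) - (a j.1 + a j.2))) := by
    rw [Complex.ofReal_sum, Finset.sum_congr rfl fun x _ => h1 x, Finset.sum_comm]
    refine Finset.sum_congr rfl fun i _ => ?_
    rw [Finset.sum_comm]
    refine Finset.sum_congr rfl fun j _ => ?_
    rw [Finset.mul_sum]
  have h5 : ∑ x ∈ s, ‖∑ q ∈ Q, b q * ee ((x : ℝ) * a q)‖ ^ 4 =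
      ‖(((∑ x ∈ s, ‖∑ q ∈ Q, b q * ee ((x : ℝ) * a q)‖ ^ 4 : ℝ)) : ℂ)‖ := by
    rw [Complex.norm_real, Real.norm_of_nonneg]
    exact Finset.sum_nonneg fun _ _ => by positivity
  rw [h5, h4]
  refine (norm_sum_le _ _).trans (Finset.sum_le_sum fun i hi => (norm_sum_le _ _).trans
    (Finset.sum_le_sum fun j hj => ?_))
  rw [mem_product] at hi hj
  rw [norm_mul, norm_mul, norm_mul, RCLike.norm_conj, norm_mul]
  have h6 : ‖b i.1‖ * ‖b i.2‖ ≤ 1 := mul_le_one₀ (hb _ hi.1) (norm_nonneg _) (hb _ hi.2)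
  have h7 : ‖b j.1‖ * ‖b j.2‖ ≤ 1 := mul_le_one₀ (hb _ hj.1) (norm_nonneg _) (hb _ hj.2)
  have h8 : ‖b i.1‖ * ‖b i.2‖ * (‖b j.1‖ * ‖b j.2‖) ≤ 1 := mul_le_one₀ h6 (by positivity) h7
  exact mul_le_of_le_one_left (norm_nonneg _) h8

theorem mom (X R k : ℕ) (σ : ℝ) (hσ : |σ| = 1) (hR : 1 ≤ R) (hk : 1 ≤ k) (hX : R ^ 3 ≤ X) (Q : Finset ℕ)
    (hQ : ∀ q ∈ Q, q ∈ Ioc R (2 * R) ∧ 2 * k ≤ q) (b : ℕ → ℂ) (hb : ∀ q ∈ Q, ‖b q‖ ≤ 1) :
    ∑ x ∈ Ioc X (2 * X), ‖∑ q ∈ Q, b q * ee ((x : ℝ) * (σ * ((k : ℝ) / q)))‖ ^ 4 ≤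
      4 * X * (1 + Real.log ((R : ℝ) ^ 2 + 1)) * NN R := by
  classical
  have hR0 : (0 : ℝ) < R := by exact_mod_cast hR
  have hR1 : (1 : ℝ) ≤ R := by exact_mod_cast hR
  have hk1 : (1 : ℝ) ≤ k := by exact_mod_cast hk
  have hXr : (R : ℝ) ^ 3 ≤ X := by exact_mod_cast hX
  set β : ℕ × ℕ → ℝ := fun i => 1 / (i.1 : ℝ) + 1 / (i.2 : ℝ) with hβ
  set c : ℕ × ℕ → ℤ := fun i => ⌊β i * (R : ℝ) ^ 3⌋ with hc
  set K : ℤ → ℝ := fun d => X * (2 / (1 + |(d : ℝ)|)) with hK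
  -- the range of β
  have hq : ∀ q ∈ Q, 1 / (2 * (R : ℝ)) ≤ 1 / (q : ℝ) ∧ 1 / (q : ℝ) < 1 / R ∧ (k : ℝ) * (1 / q) ≤ 1 / 2 := by
    intro q hq
    obtain ⟨h1, h2⟩ := hQ q hq
    rw [mem_Ioc] at h1
    have h3 : (R : ℝ) < q := by exact_mod_cast h1.1
    have h4 : (q : ℝ) ≤ 2 * R := by exact_mod_cast h1.2
    have h5 : 2 * (k : ℝ) ≤ q := by exact_mod_cast h2
    have h6 : (0 : ℝ) < q := by linarith
    refine ⟨one_div_le_one_div_of_le h6 h4, one_div_lt_one_div_of_lt hR0 h3, ?_⟩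
    rw [mul_one_div, div_le_div_iff₀ h6 (by norm_num)]
    linarith
  have hβ1 : ∀ i ∈ Q ×ˢ Q, 1 / (R : ℝ) ≤ β i ∧ β i < 2 / R ∧ (k : ℝ) * β i ≤ 1 := by
    intro i hi
    rw [mem_product] at hi
    obtain ⟨h1, h2, h3⟩ := hq _ hi.1
    obtain ⟨h4, h5, h6⟩ := hq _ hi.2
    have h7 : 1 / (R : ℝ) = 1 / (2 * R) + 1 / (2 * R) := by field_simp; norm_num
    have h8 : 2 / (R : ℝ) = 1 / R + 1 / R := by ring
    refine ⟨?_, ?_, ?_⟩
    · simp only [hβ]; rw [h7]; linarith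
    · simp only [hβ]; rw [h8]; linarith
    · simp only [hβ]; rw [mul_add]; linarith
  -- no wrap
  have hhalf : ∀ i ∈ Q ×ˢ Q, ∀ j ∈ Q ×ˢ Q, (k : ℝ) * (β i - β j) ≤ 1 / 2 := by
    intro i hi j hj
    obtain ⟨h1, h2, h3⟩ := hβ1 i hi
    obtain ⟨h4, h5, h6⟩ := hβ1 j hj
    have h7 : (k : ℝ) * (1 / R) ≤ k * β j := mul_le_mul_of_nonneg_left h4 (by linarith)
    have h8 : (k : ℝ) * β i ≤ k * (2 / R) := mul_le_mul_of_nonneg_left h2.le (by linarith)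
    have h9 : (k : ℝ) * (2 / R) = 2 * (k * (1 / R)) := by ring
    rw [mul_sub]
    linarith
  have hhalf' : ∀ i ∈ Q ×ˢ Q, ∀ j ∈ Q ×ˢ Q, (k : ℝ) * |β i - β j| ≤ 1 / 2 := by
    intro i hi j hj
    rcases abs_cases (β i - β j) with ⟨h, _⟩ | ⟨h, _⟩
    · rw [h]; exact hhalf i hi j hj
    · rw [h, neg_sub]; exact hhalf j hj i hi
  -- the exponential sums
  have hsum : ∀ i ∈ Q ×ˢ Q, ∀ j ∈ Q ×ˢ Q, ‖∑ x ∈ Ioc X (2 * X), ee ((x : ℝ) *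
      ((σ * ((k : ℝ) / i.1) + σ * ((k : ℝ) / i.2)) - (σ * ((k : ℝ) / j.1) + σ * ((k : ℝ) / j.2))))‖ ≤
        K (c i - c j) := by
    intro i hi j hj
    set α : ℝ := (σ * ((k : ℝ) / i.1) + σ * ((k : ℝ) / i.2)) - (σ * ((k : ℝ) / j.1) + σ * ((k : ℝ) / j.2)) with hα
    have hα1 : α = σ * (k * (β i - β j)) := by
      rw [hα]; simp only [hβ]; ring
    have hα2 : |α| = k * |β i - β j| := by
      rw [hα1, abs_mul, hσ, one_mul, abs_mul, abs_of_nonneg (by linarith : (0 : ℝ) ≤ k)]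
    have hα3 : |α| ≤ 1 / 2 := by rw [hα2]; exact hhalf' i hi j hj
    obtain ⟨g1, g2⟩ := geo X α hα3
    have hX0 : (0 : ℝ) ≤ X := Nat.cast_nonneg _
    -- difference of the cells
    have hd : |((c i - c j : ℤ) : ℝ)| - 1 < |β i - β j| * (R : ℝ) ^ 3 := by
      have e1 := Int.floor_le (β i * (R : ℝ) ^ 3)
      have e2 := Int.lt_floor_add_one (β i * (R : ℝ) ^ 3)
      have e3 := Int.floor_le (β j * (R : ℝ) ^ 3)
      have e4 := Int.lt_floor_add_one (β j * (R : ℝ) ^ 3)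
      have e5 : |β i - β j| * (R : ℝ) ^ 3 = |β i * (R : ℝ) ^ 3 - β j * (R : ℝ) ^ 3| := by
        rw [← sub_mul, abs_mul, abs_of_nonneg (by positivity : (0 : ℝ) ≤ (R : ℝ) ^ 3)]
      rw [e5]
      have e6 : ((c i - c j : ℤ) : ℝ) = (⌊β i * (R : ℝ) ^ 3⌋ : ℝ) - (⌊β j * (R : ℝ) ^ 3⌋ : ℝ) := by
        simp only [hc]; push_cast; ring
      rw [e6]
      rcases abs_cases ((⌊β i * (R : ℝ) ^ 3⌋ : ℝ) - (⌊β j * (R : ℝ) ^ 3⌋ : ℝ)) with ⟨h, _⟩ | ⟨h, _⟩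
      · rw [h]
        have := le_abs_self (β i * (R : ℝ) ^ 3 - β j * (R : ℝ) ^ 3)
        linarith
      · rw [h]
        have := neg_abs_le (β i * (R : ℝ) ^ 3 - β j * (R : ℝ) ^ 3)
        linarith
    set d : ℤ := c i - c j with hdd
    rcases le_or_gt |d| 1 with h1 | h1
    · have h2 : |(d : ℝ)| ≤ 1 := by exact_mod_cast h1
      refine g1.trans ?_
      simp only [hK]
      have h3 : (1 : ℝ) ≤ 2 / (1 + |(d : ℝ)|) := by
        rw [le_div_iff₀ (by positivity)]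
        linarith
      exact le_mul_of_one_le_right hX0 h3
    · have h2 : (2 : ℝ) ≤ |(d : ℝ)| := by exact_mod_cast h1
      have h3 : 0 < |β i - β j| * (R : ℝ) ^ 3 := by linarith
      have h4 : 0 < |β i - β j| := by
        by_contra hn
        have : |β i - β j| = 0 := le_antisymm (not_lt.1 hn) (abs_nonneg _)
        rw [this] at h3
        simp at h3
      have h5 : α ≠ 0 := by
        rw [← abs_pos, hα2]
        positivity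
      refine (g2 h5).trans ?_
      rw [hα2]
      simp only [hK]
      have h6 : (|(d : ℝ)| - 1) ≤ k * |β i - β j| * X := by
        have h7 : |β i - β j| * (R : ℝ) ^ 3 ≤ |β i - β j| * X := mul_le_mul_of_nonneg_left hXr h4.le
        have h8 : |β i - β j| * X ≤ k * (|β i - β j| * X) := le_mul_of_one_le_left (by positivity) hk1
        rw [mul_assoc]
        linarith
      rw [mul_div_assoc', div_le_div_iff₀ (by positivity) (by positivity)]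
      have h9 : 1 + |(d : ℝ)| ≤ 4 * (|(d : ℝ)| - 1) := by linarith
      have h10 : (X : ℝ) * 2 * (2 * (k * |β i - β j|)) = 4 * (k * |β i - β j| * X) := by ring
      rw [h10]
      linarith
  refine (mom_exp (Ioc X (2 * X)) Q (fun q => σ * ((k : ℝ) / q)) b hb).trans ?_
  refine (Finset.sum_le_sum fun i hi => Finset.sum_le_sum fun j hj => hsum i hi j hj).trans ?_
  have hKpos : ∀ d, 0 ≤ K d := fun d => by simp only [hK]; positivity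
  have hcr : ∀ i ∈ Q ×ˢ Q, (R : ℤ) ^ 2 ≤ c i ∧ c i ≤ 2 * (R : ℤ) ^ 2 := by
    intro i hi
    obtain ⟨h1, h2, h3⟩ := hβ1 i hi
    constructor
    · simp only [hc]
      rw [Int.le_floor]
      push_cast
      have h4 : 1 / (R : ℝ) * (R : ℝ) ^ 3 ≤ β i * (R : ℝ) ^ 3 := mul_le_mul_of_nonneg_right h1 (by positivity)
      have h5 : 1 / (R : ℝ) * (R : ℝ) ^ 3 = (R : ℝ) ^ 2 := by field_simp
      linarith
    · have h4 : ((c i : ℤ) : ℝ) ≤ 2 * (R : ℝ) ^ 2 := by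
        have h5 : ((c i : ℤ) : ℝ) ≤ β i * (R : ℝ) ^ 3 := by
          simp only [hc]
          exact Int.floor_le _
        have h6 : β i * (R : ℝ) ^ 3 ≤ 2 / (R : ℝ) * (R : ℝ) ^ 3 := mul_le_mul_of_nonneg_right h2.le (by positivity)
        have h7 : 2 / (R : ℝ) * (R : ℝ) ^ 3 = 2 * (R : ℝ) ^ 2 := by field_simp
        linarith
      exact_mod_cast h4
  have hD : ∀ i ∈ Q ×ˢ Q, ∀ j ∈ Q ×ˢ Q, c i - c j ∈ Icc (-((R ^ 2 : ℕ) : ℤ)) ((R ^ 2 : ℕ) : ℤ) := by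
    intro i hi j hj
    obtain ⟨h1, h2⟩ := hcr i hi
    obtain ⟨h3, h4⟩ := hcr j hj
    rw [mem_Icc]
    push_cast
    constructor <;> linarith
  refine (cell (Q ×ˢ Q) c K hKpos _ hD).trans ?_
  have h11 : ∑ d ∈ Icc (-((R ^ 2 : ℕ) : ℤ)) ((R ^ 2 : ℕ) : ℤ), K d ≤ 4 * X * (1 + Real.log ((R : ℝ) ^ 2 + 1)) := by
    simp only [hK]
    rw [← Finset.mul_sum]
    have h12 := mul_le_mul_of_nonneg_left (ker_sum (R ^ 2)) (Nat.cast_nonneg X : (0 : ℝ) ≤ X)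
    refine h12.trans (le_of_eq ?_)
    push_cast
    ring
  have h13 : ((((Q ×ˢ Q) ×ˢ (Q ×ˢ Q)).filter (fun p => c p.1 = c p.2)).card : ℝ) ≤ NN R := by
    unfold NN
    rw [Nat.cast_le]
    refine Finset.card_le_card_of_injOn (fun p => (p.1.1, p.1.2, p.2.1, p.2.2)) ?_ ?_
    · intro p hp
      rw [Finset.mem_coe, mem_filter, mem_product, mem_product, mem_product] at hp
      obtain ⟨⟨⟨h1, h2⟩, h3, h4⟩, h5⟩ := hp
      rw [Finset.mem_coe, mem_filter, mem_product, mem_product, mem_product]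
      refine ⟨⟨(hQ _ h1).1, (hQ _ h2).1, (hQ _ h3).1, (hQ _ h4).1⟩, ?_⟩
      simp only [hc] at h5
      have h6 := Int.abs_sub_lt_one_of_floor_eq_floor h5
      have h7 : |(β p.1 - β p.2) * (R : ℝ) ^ 3| < 1 := by
        rw [sub_mul]
        exact h6
      rw [abs_mul, abs_of_nonneg (by positivity : (0 : ℝ) ≤ (R : ℝ) ^ 3)] at h7
      have h8 : |β p.1 - β p.2| ≤ 1 / (R : ℝ) ^ 3 := by
        rw [le_div_iff₀ (by positivity)]
        exact h7.le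
      have h9 : β p.1 - β p.2 = 1 / (p.1.1 : ℝ) + 1 / (p.1.2 : ℝ) - 1 / (p.2.1 : ℝ) - 1 / (p.2.2 : ℝ) := by
        simp only [hβ]
        ring
      rw [h9] at h8
      exact h8
    · intro p _ p' _ h
      simp only [Prod.mk.injEq] at h
      obtain ⟨h1, h2, h3, h4⟩ := h
      exact Prod.ext (Prod.ext h1 h2) (Prod.ext h3 h4)
  have hlog : 0 ≤ Real.log ((R : ℝ) ^ 2 + 1) := Real.log_nonneg (by nlinarith)
  exact mul_le_mul h11 h13 (Nat.cast_nonneg _) (by positivity)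

end Pool.Agent.H27.RU
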